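import Pool.Agent.Helper57.REC.Stmts1
import Pool.Agent.Helper22.MU.FRE

/-!
# REC, module OVP: the primes of the ring of all algebraic integers over the places of `F`
-/

set_option autoImplicit false
set_option maxHeartbeats 800000

open NumberField
open scoped Pointwise

namespace REC

open Pool.Agent.Helper13.ZL (Pl q HasMean)
open MU (Gal Zb Over CongPow)

section

variable {F : Type} [Field F] [NumberField F]

theorem ovp_isGalois (F : Type) [Field F] [NumberField F] : IsGalois F (AlgebraicClosure F) :=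
  inferInstance

theorem ovp_iff (v : Pl F) (P : Ideal (𝓞 (AlgebraicClosure F))) :
    OverP v (P : Ideal (Zb F)) ↔ P.IsPrime ∧ P.under (𝓞 F) = v.asIdeal := by
  constructor
  · intro h
    refine ⟨h.1, ?_⟩
    ext x
    rw [Ideal.under_def, Ideal.mem_comap]
    exact h.2 x (algebraMap (𝓞 F) (𝓞 (AlgebraicClosure F)) x) rfl
  · intro h
    refine ⟨h.1, ?_⟩
    have key : ∀ (x : 𝓞 F) (y : 𝓞 (AlgebraicClosure F)),
        (y : AlgebraicClosure F) = algebraMap F (AlgebraicClosure F) (x : F) →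
        (y ∈ P ↔ x ∈ v.asIdeal) := by
      intro x y hxy
      have h1 : y = algebraMap (𝓞 F) (𝓞 (AlgebraicClosure F)) x := RingOfIntegers.ext hxy
      rw [h1, ← h.2, Ideal.under_def, Ideal.mem_comap]
    exact fun x y hxy => key x y hxy

theorem ovp_finite (v : Pl F) : Finite (𝓞 F ⧸ v.asIdeal) :=
  (Ideal.absNorm_ne_zero_iff v.asIdeal).1 (mt Ideal.absNorm_eq_zero_iff.1 v.ne_bot)

theorem ovp_q (v : Pl F) : q v = Nat.card (𝓞 F ⧸ v.asIdeal) := rfl

attribute [local instance] Ideal.Quotient.field in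
/-- the residue field -/
theorem ovp_res (v : Pl F) : ∃ p f : ℕ, p.Prime ∧ 1 ≤ f ∧ q v = p ^ f ∧ (p : 𝓞 F) ∈ v.asIdeal ∧
    ∀ k : ℕ, (∀ x : 𝓞 F, x ^ p ^ k - x ∈ v.asIdeal) → f ∣ k := by
  have hmax : v.asIdeal.IsMaximal := v.isPrime.isMaximal v.ne_bot
  have hfin := ovp_finite v
  let := Fintype.ofFinite (𝓞 F ⧸ v.asIdeal)
  obtain ⟨p, hp⟩ := CharP.exists (𝓞 F ⧸ v.asIdeal)
  obtain ⟨n, hpp, hn⟩ := FiniteField.card (𝓞 F ⧸ v.asIdeal) p
  refine ⟨p, n, hpp, n.2, ?_, ?_, ?_⟩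
  · rw [ovp_q, Nat.card_eq_fintype_card, hn]
  · rw [← Ideal.Quotient.eq_zero_iff_mem, map_natCast]
    exact CharP.cast_eq_zero _ p
  · intro k hk
    have : Fact p.Prime := ⟨hpp⟩
    let : Algebra (ZMod p) (𝓞 F ⧸ v.asIdeal) := ZMod.algebra _ p
    have h1 : FiniteField.frobeniusAlgHom (ZMod p) (𝓞 F ⧸ v.asIdeal) ^ k = 1 := by
      ext y
      obtain ⟨x, rfl⟩ := Ideal.Quotient.mk_surjective y
      have h2 : (FiniteField.frobeniusAlgHom (ZMod p) (𝓞 F ⧸ v.asIdeal) ^ k)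
          (Ideal.Quotient.mk v.asIdeal x) = (Ideal.Quotient.mk v.asIdeal x) ^ p ^ k := by
        rw [AlgHom.coe_pow, FiniteField.coe_frobeniusAlgHom, pow_iterate, ZMod.card]
      rw [h2, AlgHom.one_apply, ← map_pow, Ideal.Quotient.eq]
      exact hk x
    have h3 := orderOf_dvd_of_pow_eq_one h1
    rw [FiniteField.orderOf_frobeniusAlgHom] at h3
    have h4 : Module.finrank (ZMod p) (𝓞 F ⧸ v.asIdeal) = n := by
      have h5 := Module.card_eq_pow_finrank (K := ZMod p) (V := 𝓞 F ⧸ v.asIdeal)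
      rw [hn, ZMod.card] at h5
      exact (Nat.pow_right_injective hpp.two_le h5).symm
    rwa [h4] at h3

theorem ovp_max (v : Pl F) (P : Ideal (𝓞 (AlgebraicClosure F))) (hP : P.IsPrime)
    (h : P.under (𝓞 F) = v.asIdeal) : P.IsMaximal := by
  have hmax : v.asIdeal.IsMaximal := v.isPrime.isMaximal v.ne_bot
  have : P.LiesOver v.asIdeal := ⟨h.symm⟩
  exact Ideal.IsMaximal.of_liesOver_isMaximal P v.asIdeal

end

theorem st_OVP : ST_OVP := by
  intro F _ _
  refine ⟨?_, ?_, ?_, ?_, ?_, ?_, ?_⟩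
  · intro v
    have := v.isPrime
    obtain ⟨Q, hQ, hQP⟩ := Ideal.exists_ideal_over_prime_of_isIntegral_of_isDomain
      (S := 𝓞 (AlgebraicClosure F)) v.asIdeal
      (by rw [RingOfIntegers.ker_algebraMap_eq_bot]; exact bot_le)
    exact ⟨Q, (ovp_iff v Q).2 ⟨hQ, hQP⟩⟩
  · intro v 𝔓 h
    let P : Ideal (𝓞 (AlgebraicClosure F)) := 𝔓
    obtain ⟨hP, hu⟩ := (ovp_iff v P).1 h
    have hmax : v.asIdeal.IsMaximal := v.isPrime.isMaximal v.ne_bot
    have hPm := ovp_max v P hP hu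
    have hl : P.LiesOver v.asIdeal := ⟨hu.symm⟩
    have hfin := ovp_finite v
    obtain ⟨σ, hσ⟩ := AbMot.wc_exists_smul (K := F) (Ω := AlgebraicClosure F) v.asIdeal P
    refine ⟨σ, ?_⟩
    have key : ∀ x y : 𝓞 (AlgebraicClosure F),
        (y : AlgebraicClosure F) = σ (x : AlgebraicClosure F) → y - x ^ q v ∈ P := by
      intro x y hxy
      have h1 : y = σ • x := RingOfIntegers.ext hxy
      rw [h1]
      exact hσ x
    exact fun x y hxy => key x y hxy
  · intro p 𝔓 hp h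
    let P : Ideal (𝓞 (AlgebraicClosure F)) := 𝔓
    have hP : P.IsPrime := h.1
    have hpP : (p : 𝓞 (AlgebraicClosure F)) ∈ P := h.2
    have h0 : P.under (𝓞 F) ≠ ⊥ := by
      intro h1
      have h2 : (p : 𝓞 F) ∈ P.under (𝓞 F) := by
        rw [Ideal.under_def, Ideal.mem_comap, map_natCast]
        exact hpP
      rw [h1, Ideal.mem_bot] at h2
      exact hp.ne_zero (by exact_mod_cast h2)
    exact ⟨⟨P.under (𝓞 F), Ideal.IsPrime.under (𝓞 F) P, h0⟩, (ovp_iff _ P).2 ⟨hP, rfl⟩⟩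
  · intro v 𝔓 h
    obtain ⟨p, f, h1, h2, h3, h4, _⟩ := ovp_res v
    refine ⟨p, f, h1, h2, h3, ⟨h.1, ?_⟩, h4⟩
    exact (h.2 (p : 𝓞 F) (p : Zb F) (by simp)).2 h4
  · intro v v' 𝔓 h h'
    let P : Ideal (𝓞 (AlgebraicClosure F)) := 𝔓
    have h1 := ((ovp_iff v P).1 h).2
    have h2 := ((ovp_iff v' P).1 h').2
    exact IsDedekindDomain.HeightOneSpectrum.ext (h1.symm.trans h2)
  · intro v 𝔓 𝔓' h h'
    have := AbMot.wc_isInvariant (K := F) (Ω := AlgebraicClosure F)
    have := AbMot.wc_comm (K := F) (Ω := AlgebraicClosure F)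
    let : TopologicalSpace (𝓞 (AlgebraicClosure F)) := ⊥
    have : DiscreteTopology (𝓞 (AlgebraicClosure F)) := ⟨rfl⟩
    have : ContinuousSMul (Gal F) (𝓞 (AlgebraicClosure F)) := by
      rw [continuousSMul_iff_stabilizer_isOpen]
      intro x
      have h := stabilizer_isOpen_of_isIntegral (K := F) (L := AlgebraicClosure F)
        (x : AlgebraicClosure F)
      have e : (MulAction.stabilizer (Gal F) x : Set (Gal F))
          = (MulAction.stabilizer (Gal F) (x : AlgebraicClosure F) : Set (Gal F)) := by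
        ext g
        constructor
        · intro hg
          exact congrArg (fun z : 𝓞 (AlgebraicClosure F) => (z : AlgebraicClosure F)) hg
        · intro hg
          exact RingOfIntegers.ext hg
      rw [e]
      exact h
    let P : Ideal (𝓞 (AlgebraicClosure F)) := 𝔓
    let Q : Ideal (𝓞 (AlgebraicClosure F)) := 𝔓'
    obtain ⟨hP, hPu⟩ := (ovp_iff v P).1 h
    obtain ⟨hQ, hQu⟩ := (ovp_iff v Q).1 h'
    have hu : P.under (𝓞 F) = Q.under (𝓞 F) := hPu.trans hQu.symm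
    obtain ⟨g, hg⟩ := Algebra.IsInvariant.exists_smul_of_under_eq_of_profinite
      (A := 𝓞 F) (B := 𝓞 (AlgebraicClosure F)) (G := Gal F) P Q hu
    refine ⟨g, ?_⟩
    have key : ∀ x y : 𝓞 (AlgebraicClosure F), (y : AlgebraicClosure F) = g (x : AlgebraicClosure F) →
        (x ∈ P ↔ y ∈ Q) := by
      intro x y hxy
      have h1 : y = g • x := RingOfIntegers.ext hxy
      rw [h1, hg, Ideal.smul_mem_pointwise_smul_iff]
    exact fun x y hxy => key x y hxy
  · intro v 𝔓 h p k σ hp hov hc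
    obtain ⟨p', f, h1, h2, h3, h4, h5⟩ := ovp_res v
    have hpv : (p : 𝓞 F) ∈ v.asIdeal := (h.2 (p : 𝓞 F) (p : Zb F) (by simp)).1 hov.2
    have hpp : p = p' := by
      by_contra hne
      have hco : IsCoprime ((p : ℕ) : ℤ) ((p' : ℕ) : ℤ) :=
        Nat.isCoprime_iff_coprime.2 ((Nat.coprime_primes hp h1).2 hne)
      obtain ⟨a, b, hab⟩ := hco
      have h6 : (1 : 𝓞 F) ∈ v.asIdeal := by
        have h7 : (1 : 𝓞 F) = (a : 𝓞 F) * (p : 𝓞 F) + (b : 𝓞 F) * (p' : 𝓞 F) := by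
          exact_mod_cast (congrArg (fun z : ℤ => (z : 𝓞 F)) hab).symm
        rw [h7]
        exact v.asIdeal.add_mem (v.asIdeal.mul_mem_left _ hpv) (v.asIdeal.mul_mem_left _ h4)
      exact v.isPrime.ne_top ((Ideal.eq_top_iff_one _).2 h6)
    subst hpp
    have h6 : f ∣ k := by
      apply h5
      intro x
      let y : Zb F := (algebraMap (𝓞 F) (𝓞 (AlgebraicClosure F)) x : 𝓞 (AlgebraicClosure F))
      have hy : (y : AlgebraicClosure F) = algebraMap F (AlgebraicClosure F) (x : F) := rfl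
      have h7 : y - y ^ p ^ k ∈ 𝔓 := hc y y (by rw [hy, AlgEquiv.commutes])
      have h8 : y ^ p ^ k - y ∈ 𝔓 := by
        rw [← neg_sub]
        exact 𝔓.neg_mem h7
      exact (h.2 (x ^ p ^ k - x) (y ^ p ^ k - y) (by simp [hy])).1 h8
    obtain ⟨j, rfl⟩ := h6
    exact ⟨j, by rw [h3, pow_mul]⟩

end REC
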