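import Pool.Agent.Helper85.REC.Stmts6

/-!
# REC, part 6: `FIN0`, finiteness from `ADE0` and `ISO0`
-/

set_option autoImplicit false

open scoped Classical
open NumberField Polynomial

namespace REC

open MU

theorem st_FIN0 : ST_ADE0 → ST_ISO0 → ST_FIN0 := by
  intro hA hI F _ _ S hS n w h
  obtain ⟨κ, hκ, col, hcol⟩ := hA F S hS n w h
  haveI := Fintype.ofFinite κ
  have hN : ∀ k : κ, ∃ N : ℕ, ∀ 𝒯 : Set (Mot F S n w h), (∀ M ∈ 𝒯, Reg0 M ∧ col M = k) →
      (∀ M ∈ 𝒯, ∀ M' ∈ 𝒯, M.Isog M') →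
      ∃ T : Finset (Mot F S n w h), (T : Set (Mot F S n w h)) ⊆ 𝒯 ∧ T.card ≤ N ∧
        ∀ M ∈ 𝒯, ∃ M' ∈ T, M.Iso M' := by
    intro k
    by_cases hk : ∃ M₀ : Mot F S n w h, Reg0 M₀ ∧ col M₀ = k
    · obtain ⟨M₀, h0, hk0⟩ := hk
      obtain ⟨N, hN⟩ := hI F S n w h M₀ h0
      exact ⟨N, fun 𝒯 h1 h2 => hN 𝒯
        (fun M hM => hcol M M₀ (h1 M hM).1 h0 ((h1 M hM).2.trans hk0.symm)) h2⟩
    · exact ⟨0, fun 𝒯 h1 _ => ⟨∅, by simp, by simp, fun M hM => absurd ⟨M, h1 M hM⟩ hk⟩⟩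
  choose N hN using hN
  refine ⟨Fintype.card κ + ∑ k, N k, fun 𝒯 hReg => ⟨?_, fun hTate => ?_⟩⟩
  · let rep : κ → Finset (Mot F S n w h) := fun k =>
      if hk : ∃ M, M ∈ 𝒯 ∧ col M = k then {hk.choose} else ∅
    have hrep : ∀ k, ∀ M ∈ rep k, M ∈ 𝒯 ∧ col M = k := by
      intro k M hM
      by_cases hk : ∃ M, M ∈ 𝒯 ∧ col M = k
      · have h1 : rep k = {hk.choose} := dif_pos hk
        rw [h1, Finset.mem_singleton] at hM
        rw [hM]
        exact hk.choose_spec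
      · have h1 : rep k = ∅ := dif_neg hk
        rw [h1] at hM
        exact absurd hM (Finset.notMem_empty M)
    have hcard : ∀ k, (rep k).card ≤ 1 := by
      intro k
      by_cases hk : ∃ M, M ∈ 𝒯 ∧ col M = k
      · have h1 : rep k = {hk.choose} := dif_pos hk
        rw [h1, Finset.card_singleton]
      · have h1 : rep k = ∅ := dif_neg hk
        rw [h1, Finset.card_empty]
        exact Nat.zero_le 1
    refine ⟨Finset.univ.biUnion rep, ?_, ?_, ?_⟩
    · intro M hM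
      rw [Finset.mem_coe, Finset.mem_biUnion] at hM
      obtain ⟨k, _, hk⟩ := hM
      exact (hrep k M hk).1
    · refine le_trans Finset.card_biUnion_le ?_
      refine le_trans (Finset.sum_le_sum fun k _ => hcard k) ?_
      rw [Finset.sum_const, smul_eq_mul, mul_one, Finset.card_univ]
      exact Nat.le_add_right _ _
    · intro M hM
      have hk : ∃ M', M' ∈ 𝒯 ∧ col M' = col M := ⟨M, hM, rfl⟩
      have h1 : rep (col M) = {hk.choose} := dif_pos hk
      refine ⟨hk.choose, Finset.mem_biUnion.2 ⟨col M, Finset.mem_univ _, ?_⟩, ?_⟩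
      · rw [h1]
        exact Finset.mem_singleton_self _
      · exact hcol M _ (hReg M hM) (hReg _ hk.choose_spec.1) hk.choose_spec.2.symm
  · have hT : ∀ k : κ, ∃ T : Finset (Mot F S n w h),
        (T : Set (Mot F S n w h)) ⊆ {M | M ∈ 𝒯 ∧ col M = k} ∧ T.card ≤ N k ∧
        ∀ M ∈ {M | M ∈ 𝒯 ∧ col M = k}, ∃ M' ∈ T, M.Iso M' := by
      intro k
      refine hN k {M | M ∈ 𝒯 ∧ col M = k} (fun M hM => ⟨hReg M hM.1, hM.2⟩) ?_
      intro M hM M' hM'
      exact hTate M hM.1 M' hM'.1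
        (hcol M M' (hReg M hM.1) (hReg M' hM'.1) (hM.2.trans hM'.2.symm))
    choose T hT1 hT2 hT3 using hT
    refine ⟨Finset.univ.biUnion T, ?_, ?_, ?_⟩
    · intro M hM
      rw [Finset.mem_coe, Finset.mem_biUnion] at hM
      obtain ⟨k, _, hk⟩ := hM
      exact (hT1 k hk).1
    · refine le_trans Finset.card_biUnion_le ?_
      refine le_trans (Finset.sum_le_sum fun k _ => hT2 k) ?_
      exact Nat.le_add_left _ _
    · intro M hM
      obtain ⟨M', hM', h1⟩ := hT3 (col M) M ⟨hM, rfl⟩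
      exact ⟨M', Finset.mem_biUnion.2 ⟨col M, Finset.mem_univ _, hM'⟩, h1⟩

end REC
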