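import Pool.Agent.Helper85.REC.Stmts6

/-!
# REC, part 6: `SPQ`, a number field embeds in infinitely many `ℚ_l`
-/

set_option autoImplicit false

open NumberField Polynomial

namespace REC

/-- primes dividing the values of a nonconstant polynomial, outside a given modulus -/
theorem spq_prime (g : ℤ[X]) (hg : 0 < g.natDegree) (M : ℕ) (hM : 2 ≤ M) :
    ∃ l : ℕ, l.Prime ∧ ¬ l ∣ M ∧ ∃ a : ℤ, (l : ℤ) ∣ g.eval a := by
  have hg0 : g ≠ 0 := by
    rintro rfl
    simp at hg
  obtain ⟨a0, ha0⟩ : ∃ a0 : ℤ, g.eval a0 ≠ 0 := by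
    by_contra hcon
    push Not at hcon
    exact hg0 (Polynomial.funext fun x => by rw [hcon x, eval_zero])
  set r : ℤ := g.eval a0 with hr
  have hM0 : (M : ℤ) ≠ 0 := by
    have : (M : ℕ) ≠ 0 := by omega
    exact_mod_cast this
  have hrM : r * M ≠ 0 := mul_ne_zero ha0 hM0
  set lin : ℤ[X] := C a0 + C (r * M) * Polynomial.X with hlin
  have hlindeg : lin.natDegree = 1 := by
    rw [hlin, natDegree_C_add, natDegree_C_mul hrM, natDegree_X]
  have heval : ∀ t : ℤ, (g.comp lin).eval t = g.eval (a0 + r * M * t) := by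
    intro t
    rw [eval_comp, hlin]
    simp
  have hdiv : ∀ t : ℤ, ∃ s : ℤ, (g.comp lin).eval t = r * (1 + M * s) := by
    intro t
    have h1 := Polynomial.sub_dvd_eval_sub (a0 + r * M * t) a0 g
    rw [add_sub_cancel_left] at h1
    obtain ⟨k, hk⟩ := h1
    refine ⟨t * k, ?_⟩
    rw [heval]
    have : g.eval (a0 + r * M * t) = r + r * M * t * k := by
      rw [← hk, ← hr]
      ring
    rw [this]
    ring
  have hex : ∃ t s : ℤ, (g.comp lin).eval t = r * (1 + M * s) ∧ (1 + M * s) ^ 2 ≠ 1 := by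
    by_contra hcon
    push Not at hcon
    have hz : (g.comp lin) ^ 2 - C (r ^ 2) = 0 := by
      refine Polynomial.funext fun t => ?_
      obtain ⟨s, hs⟩ := hdiv t
      have h1 := hcon t s hs
      rw [eval_sub, eval_pow, hs, eval_C, eval_zero, mul_pow, h1]
      ring
    have hdeg : ((g.comp lin) ^ 2).natDegree = 2 * g.natDegree := by
      rw [natDegree_pow, natDegree_comp, hlindeg, mul_one]
    rw [sub_eq_zero] at hz
    rw [hz, natDegree_C] at hdeg
    omega
  obtain ⟨t, s, h1, h2⟩ := hex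
  have hne : (1 + M * s).natAbs ≠ 1 := by
    intro h
    apply h2
    rcases Int.natAbs_eq (1 + M * s) with h3 | h3 <;> rw [h3, h] <;> norm_num
  obtain ⟨l, hl, hdvd⟩ := Nat.exists_prime_and_dvd hne
  have hdvd' : (l : ℤ) ∣ 1 + M * s := Int.natCast_dvd.2 hdvd
  refine ⟨l, hl, ?_, a0 + r * M * t, ?_⟩
  · intro hlM
    have h3 : (l : ℤ) ∣ (M : ℤ) * s := Dvd.dvd.mul_right (Int.natCast_dvd_natCast.2 hlM) s
    have h4 : (l : ℤ) ∣ 1 := (dvd_add_left h3).1 hdvd'
    have h5 := Int.isUnit_iff.1 (isUnit_of_dvd_one h4)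
    have h6 := hl.two_le
    omega
  · rw [← heval, h1]
    exact Dvd.dvd.mul_left hdvd' r

theorem spq_hensel (g A B : ℤ[X]) (D : ℤ) (hD : A * g + B * derivative g = C D) (l : ℕ)
    [Fact l.Prime] (hlD : ¬ (l : ℤ) ∣ D) (a : ℤ) (ha : (l : ℤ) ∣ g.eval a) :
    ∃ z : ℤ_[l], aeval z g = 0 := by
  have h1 : ‖(aeval ((a : ℤ) : ℤ_[l]) g)‖ < 1 := by
    have : aeval ((a : ℤ) : ℤ_[l]) g = ((g.eval a : ℤ) : ℤ_[l]) :=
      aeval_algebraMap_apply_eq_algebraMap_eval a g
    rw [this]
    exact (PadicInt.norm_int_lt_one_iff_dvd _).2 ha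
  have h2 : ‖(aeval ((a : ℤ) : ℤ_[l]) (derivative g))‖ = 1 := by
    have h3 : aeval ((a : ℤ) : ℤ_[l]) (derivative g) = (((derivative g).eval a : ℤ) : ℤ_[l]) :=
      aeval_algebraMap_apply_eq_algebraMap_eval a _
    rw [h3]
    refine le_antisymm (PadicInt.norm_le_one _) ?_
    by_contra hcon
    push Not at hcon
    rw [PadicInt.norm_int_lt_one_iff_dvd] at hcon
    apply hlD
    have h4 : D = A.eval a * g.eval a + B.eval a * (derivative g).eval a := by
      rw [← eval_mul, ← eval_mul, ← eval_add, hD, eval_C]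
    rw [h4]
    exact dvd_add (Dvd.dvd.mul_left ha _) (Dvd.dvd.mul_left hcon _)
  obtain ⟨z, hz, _⟩ := hensels_lemma (F := g) (a := ((a : ℤ) : ℤ_[l])) (by
    rw [h2]
    simpa using h1)
  exact ⟨z, hz⟩

theorem st_SPQ : ST_SPQ := by
  intro L _ _ c
  let pb := Field.powerBasisOfFiniteOfSeparable ℚ L
  set f : ℚ[X] := minpoly ℚ pb.gen with hf
  have hirr : Irreducible f := minpoly.irreducible pb.isIntegral_gen
  have hsep : f.Separable := hirr.separable
  have hdeg : 0 < f.natDegree := minpoly.natDegree_pos pb.isIntegral_gen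
  obtain ⟨a, b, hab⟩ := hsep
  obtain ⟨N, hN, hg⟩ := IsLocalization.integerNormalization_spec (nonZeroDivisors ℤ) f
  obtain ⟨s, hs, hA⟩ := IsLocalization.integerNormalization_spec (nonZeroDivisors ℤ) a
  obtain ⟨t, ht, hB⟩ := IsLocalization.integerNormalization_spec (nonZeroDivisors ℤ) b
  set g := IsLocalization.integerNormalization (nonZeroDivisors ℤ) f
  set A := IsLocalization.integerNormalization (nonZeroDivisors ℤ) a
  set B := IsLocalization.integerNormalization (nonZeroDivisors ℤ) b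
  have hN0 : N ≠ 0 := nonZeroDivisors.ne_zero hN
  have hs0 : s ≠ 0 := nonZeroDivisors.ne_zero hs
  have ht0 : t ≠ 0 := nonZeroDivisors.ne_zero ht
  have hinj : Function.Injective (algebraMap ℤ ℚ) := (algebraMap ℤ ℚ).injective_int
  have hsm : ∀ (k : ℤ) (p : ℚ[X]), k • p = C (k : ℚ) * p := by
    intro k p
    rw [← smul_eq_C_mul]
    exact (Int.cast_smul_eq_zsmul ℚ k p).symm
  rw [hsm] at hg hA hB
  have hgdeg : g.natDegree = f.natDegree := by
    rw [← natDegree_map_eq_of_injective hinj g, hg, natDegree_C_mul (by exact_mod_cast hN0)]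
  have hD : C t * A * g + C s * B * derivative g = C (s * t * N) := by
    apply Polynomial.map_injective (algebraMap ℤ ℚ) hinj
    have hder : (derivative g).map (algebraMap ℤ ℚ) = C (N : ℚ) * derivative f := by
      rw [← derivative_map, hg, derivative_C_mul]
    rw [Polynomial.map_add, Polynomial.map_mul, Polynomial.map_mul, Polynomial.map_mul,
      Polynomial.map_mul, hder, hg, hA, hB, map_C, map_C, map_C]
    have e1 : C ((algebraMap ℤ ℚ) (s * t * N)) =
        C ((algebraMap ℤ ℚ) s) * C ((algebraMap ℤ ℚ) t) * C ((N : ℤ) : ℚ) := by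
      rw [← C_mul, ← C_mul]
      congr 1
      simp
    rw [e1]
    have e2 : C ((algebraMap ℤ ℚ) t) * (C (s : ℚ) * a) * (C (N : ℚ) * f) +
        C ((algebraMap ℤ ℚ) s) * (C (t : ℚ) * b) * (C (N : ℚ) * derivative f) =
        C ((algebraMap ℤ ℚ) s) * C ((algebraMap ℤ ℚ) t) * C ((N : ℤ) : ℚ) *
          (a * f + b * derivative f) := by
      have e3 : ((algebraMap ℤ ℚ) s) = (s : ℚ) := rfl
      have e4 : ((algebraMap ℤ ℚ) t) = (t : ℚ) := rfl
      rw [e3, e4]
      ring
    rw [e2, hab, mul_one]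
  obtain ⟨l, hl, hlM, x, hx⟩ := spq_prime g (by omega)
    (2 * c.factorial * (s * t * N).natAbs) (by
      have h1 := Nat.factorial_pos c
      have h2 : 0 < (s * t * N).natAbs :=
        Int.natAbs_pos.2 (mul_ne_zero (mul_ne_zero hs0 ht0) hN0)
      have h3 : 0 < c.factorial * (s * t * N).natAbs := Nat.mul_pos h1 h2
      rw [mul_assoc]
      omega)
  haveI : Fact l.Prime := ⟨hl⟩
  have hlc : c < l := by
    by_contra hcon
    push Not at hcon
    exact hlM (Dvd.dvd.mul_right (Dvd.dvd.mul_left (Nat.dvd_factorial hl.pos hcon) 2) _)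
  have hlD : ¬ (l : ℤ) ∣ s * t * N := by
    intro h
    exact hlM (Dvd.dvd.mul_left (Int.natCast_dvd.1 h) _)
  obtain ⟨z, hz⟩ := spq_hensel g (C t * A) (C s * B) (s * t * N) hD l hlD x hx
  refine ⟨l, ⟨hl⟩, hlc, ⟨(pb.lift (z : ℚ_[l]) ?_).toRingHom⟩⟩
  have h1 : aeval (z : ℚ_[l]) g = 0 := by
    have : aeval (z : ℚ_[l]) g = ((aeval z g : ℤ_[l]) : ℚ_[l]) := by
      have h2 := Polynomial.aeval_algebraMap_apply ℚ_[l] z g
      exact h2
    rw [this, hz]
    rfl
  have h2 : aeval (z : ℚ_[l]) (g.map (algebraMap ℤ ℚ)) = 0 := by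
    rw [aeval_map_algebraMap]
    exact h1
  rw [hg, map_mul, aeval_C] at h2
  rcases mul_eq_zero.1 h2 with h3 | h3
  · exfalso
    have h4 : ((N : ℤ) : ℚ) = 0 := by
      have := (map_eq_zero (algebraMap ℚ ℚ_[l])).1 h3
      exact this
    exact hN0 (by exact_mod_cast h4)
  · exact h3

end REC
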